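import Mathlib
import Pool.Agent.N893.TB.Stm

set_option autoImplicit false

namespace Pool.Agent.N99.TB.PER
open Finset Filter Topology Pool.Agent.N893.TB

lemma abel_anti {l h : ℕ → ℝ} {C : ℝ} (hl : ∀ n, l (n + 1) ≤ l n) (hl0 : ∀ n, 0 ≤ l n)
    (N : ℕ) (hh : ∀ n ≤ N, |∑ k ∈ Finset.range n, h k| ≤ C) :
    |∑ k ∈ Finset.range N, l k * h k| ≤ C * l 0 := by
  have e : ∀ n, ∑ k ∈ Finset.range n, l k * h k = l n * (∑ k ∈ Finset.range n, h k) +
      ∑ k ∈ Finset.range n, (l k - l (k + 1)) * ∑ i ∈ Finset.range (k + 1), h i := by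
    intro n
    induction n with
    | zero => simp
    | succ n ih =>
      rw [Finset.sum_range_succ, ih, Finset.sum_range_succ (fun k => (l k - l (k + 1)) * _),
        Finset.sum_range_succ h]
      ring
  rw [e N]
  have h1 : |l N * ∑ k ∈ Finset.range N, h k| ≤ l N * C := by
    rw [abs_mul, abs_of_nonneg (hl0 N)]
    exact mul_le_mul_of_nonneg_left (hh N le_rfl) (hl0 N)
  have h2 : |∑ k ∈ Finset.range N, (l k - l (k + 1)) * ∑ i ∈ Finset.range (k + 1), h i| ≤
      ∑ k ∈ Finset.range N, (l k - l (k + 1)) * C := by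
    refine (Finset.abs_sum_le_sum_abs _ _).trans (Finset.sum_le_sum fun k hk => ?_)
    rw [Finset.mem_range] at hk
    rw [abs_mul, abs_of_nonneg (by linarith [hl k])]
    exact mul_le_mul_of_nonneg_left (hh _ (by omega)) (by linarith [hl k])
  rw [← Finset.sum_mul, Finset.sum_range_sub'] at h2
  calc _ ≤ _ := abs_add_le _ _
    _ ≤ l N * C + (l 0 - l N) * C := add_le_add h1 h2
    _ = C * l 0 := by ring

theorem main : tPER := by
  intro J c g hJ hc hg hg0
  have hJ0 : (J : ℝ) ≠ 0 := by
    have : (0 : ℝ) < J := by exact_mod_cast hJ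
    exact this.ne'
  set s := ∑ k ∈ range J, c k with hs
  let u : ℕ → ℝ := fun k => c k - s / J
  have hu : ∀ k, u (J + k) = u k := fun k => by
    show c (J + k) - s / J = c k - s / J
    rw [add_comm, hc]
  have hsum : ∑ k ∈ range J, u k = 0 := by
    show ∑ k ∈ range J, (c k - s / J) = 0
    rw [Finset.sum_sub_distrib, Finset.sum_const, Finset.card_range, nsmul_eq_mul, ← hs]
    field_simp
    ring
  have hB : ∀ j, |∑ k ∈ range j, u k| ≤ ∑ k ∈ range J, |u k| := by
    intro j
    induction j using Nat.strong_induction_on with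
    | _ j ih =>
      rcases lt_or_ge j J with h1 | h1
      · refine (Finset.abs_sum_le_sum_abs _ _).trans ?_
        exact Finset.sum_le_sum_of_subset_of_nonneg (Finset.range_subset_range.2 h1.le)
          fun _ _ _ => abs_nonneg _
      · obtain ⟨i, rfl⟩ := Nat.exists_eq_add_of_le h1
        have h2 := ih i (by omega)
        have h3 : ∑ k ∈ range (J + i), u k = ∑ k ∈ range i, u k := by
          rw [Finset.sum_range_add, hsum, zero_add]
          exact Finset.sum_congr rfl fun k _ => hu k
        rw [h3]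
        exact h2
  refine ⟨(∑ k ∈ range J, |u k|) * g 0, fun K => ?_⟩
  have h4 := abel_anti hg hg0 K (fun n _ => hB n)
  have e : ∑ k ∈ range K, g k * c k - s / J * ∑ k ∈ range K, g k
      = ∑ k ∈ range K, g k * u k := by
    rw [Finset.mul_sum, ← Finset.sum_sub_distrib]
    refine Finset.sum_congr rfl fun k _ => ?_
    show _ = g k * (c k - s / J)
    ring
  rw [e]
  exact h4

end Pool.Agent.N99.TB.PER
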